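import Pool.Agent.H53.AVS.CompGen

/-!
# AVS, row CPP: the completion at a prime polynomial
-/

set_option autoImplicit false

namespace Pool.AVS

open Polynomial Pool.AVR WithZero IsLocalRing IsDedekindDomain

namespace CPP

theorem degreeLT_finite (F : Type) [Field F] [Finite F] (n : ℕ) : Finite (degreeLT F n) :=
  Finite.of_equiv _ (degreeLTEquiv F n).toEquiv.symm

/-- A function regular at `P` is congruent to a polynomial of small degree. -/
theorem exists_rep (F : Type) [Field F] (P : F[X]) (hP : P.Monic) (hi : Irreducible P)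
    (x : RatFunc F) (hx : x ∈ IP P) :
    ∃ (r : F[X]) (a d : F[X]), r ∈ degreeLT F P.natDegree ∧ ¬ P ∣ d ∧
      x - algebraMap F[X] (RatFunc F) r =
        algebraMap F[X] (RatFunc F) P * (algebraMap F[X] (RatFunc F) a /
          algebraMap F[X] (RatFunc F) d) := by
  have hx' : ¬ P ∣ x.denom := hx
  obtain ⟨u, w, huw⟩ := (hi.coprime_iff_not_dvd.2 hx').symm
  set n := x.num with hn
  set d := x.denom with hd
  have hd0 : algebraMap F[X] (RatFunc F) d ≠ 0 := by
    rw [hd]
    exact RatFunc.algebraMap_ne_zero x.denom_ne_zero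
  refine ⟨(n * u) %ₘ P, n * w + d * ((n * u) /ₘ P), d, ?_, hx', ?_⟩
  · rw [mem_degreeLT, ← degree_eq_natDegree hP.ne_zero]
    exact degree_modByMonic_lt _ hP
  · have h1 : (n * u) %ₘ P + P * ((n * u) /ₘ P) = n * u := modByMonic_add_div _ P
    have h2 : x = algebraMap F[X] (RatFunc F) n / algebraMap F[X] (RatFunc F) d :=
      (RatFunc.num_div_denom x).symm
    have h3 : n = n * u * d + n * (w * P) := by
      linear_combination -n * huw
    have h4 : n - (n * u) %ₘ P * d = P * (n * w + d * ((n * u) /ₘ P)) := by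
      linear_combination h3 - d * h1
    have h5 := congrArg (algebraMap F[X] (RatFunc F)) h4
    rw [map_sub, map_mul, map_mul] at h5
    rw [h2]
    field_simp
    linear_combination h5

end CPP

open CPP in
theorem cpp_thm : CPPStmt := by
  intro F _ _ h2 P hP hi v hv
  have hv1 : ∀ x : RatFunc F, Valued.v (algebraMap (RatFunc F) (v.adicCompletion (RatFunc F)) x) =
      v.valuation (RatFunc F) x := fun x =>
    HeightOneSpectrum.valuedAdicCompletion_eq_valuation' (v := v) x
  have hmemv : ∀ d : F[X], d ∈ v.asIdeal ↔ P ∣ d := by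
    intro d
    rw [hv, Ideal.mem_span_singleton]
  have := degreeLT_finite F P.natDegree
  refine isComp_of F h2 (IP P) _ _ (HeightOneSpectrum.denseRange_algebraMap _ v) ?_ ?_ ?_
    (degreeLT F P.natDegree) (fun t => algebraMap F[X] (RatFunc F) t) ?_ ?_
  · rw [hv1, HeightOneSpectrum.valuation_of_algebraMap,
      HeightOneSpectrum.intValuation_singleton v hP.ne_zero hv]
  · intro x
    rw [hv1]
    have h3 := HeightOneSpectrum.valuation_div_le_one_iff (K := RatFunc F) (v := v) x.num
      x.denom_ne_zero
    rw [RatFunc.num_div_denom, hmemv, hmemv] at h3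
    refine h3 fun h4 h5 => ?_
    exact hi.not_isUnit ((RatFunc.isCoprime_num_denom x).isUnit_of_dvd' h5 h4)
  · intro c hc
    rw [hv1]
    have h3 : (RatFunc.C c : RatFunc F) = algebraMap F[X] (RatFunc F) (C c) :=
      (RatFunc.algebraMap_C c).symm
    rw [h3, HeightOneSpectrum.valuation_eq_one_iff_notMem, hmemv]
    intro h4
    exact hi.not_isUnit (isUnit_of_dvd_unit h4 (isUnit_C.2 (isUnit_iff_ne_zero.2 hc)))
  · intro t
    rw [hv1]
    exact v.valuation_le_one _
  · intro x hx
    obtain ⟨r, a, d, hr, hd, he⟩ := exists_rep F P hP hi x hx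
    refine ⟨⟨r, hr⟩, ?_⟩
    rw [hv1, he, map_mul, map_div₀, HeightOneSpectrum.valuation_of_algebraMap,
      HeightOneSpectrum.intValuation_singleton v hP.ne_zero hv,
      (HeightOneSpectrum.valuation_eq_one_iff_notMem (v := v) (r := d)).2 (by rwa [hmemv]), div_one]
    refine lt_of_le_of_lt (mul_le_of_le_one_right' (v.valuation_le_one a)) ?_
    rw [← exp_zero, exp_lt_exp]
    omega

end Pool.AVS
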