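import Pool.Agent.H14.AVS.S3

/-!
# AVS, rows CPP and CPI: complete discretely valued fields are as required in `Loc`
-/

set_option autoImplicit false

namespace Pool.AVS.CPP

open Polynomial Pool.AVR WithZero IsLocalRing

section General

variable (L : Type) [Field L] [Valued L (WithZero (Multiplicative ℤ))]

/-- The valuation ring. -/
abbrev OO : ValuationSubring L :=
  (Valued.v (R := L) (Γ₀ := WithZero (Multiplicative ℤ))).valuationSubring

variable {L}

theorem mem_OO (x : L) : x ∈ OO L ↔ Valued.v x ≤ 1 := Iff.rfl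

theorem dvd_iff (x y : OO L) :
    x ∣ y ↔ Valued.v (y : L) ≤ Valued.v (x : L) := by
  constructor
  · rintro ⟨z, rfl⟩
    have hz : Valued.v (z : L) ≤ 1 := z.2
    have : ((x * z : OO L) : L) = (x : L) * z := rfl
    rw [this, map_mul]
    exact mul_le_of_le_one_right' hz
  · intro h
    by_cases hx : (x : L) = 0
    · have hy : (y : L) = 0 := by
        rw [hx, map_zero] at h
        exact (map_eq_zero _).1 (le_zero_iff.1 h)
      have hx' : x = 0 := Subtype.ext hx
      have hy' : y = 0 := Subtype.ext hy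
      rw [hx', hy']
    · have hvx : Valued.v (x : L) ≠ 0 := (_root_.map_ne_zero _).2 hx
      refine ⟨⟨(y : L) / x, ?_⟩, ?_⟩
      · rw [mem_OO, map_div₀]
        exact (div_le_one₀ (zero_lt_iff.2 hvx)).2 h
      · apply Subtype.ext
        change (y : L) = (x : L) * ((y : L) / x)
        field_simp

theorem lt_one_iff (γ : WithZero (Multiplicative ℤ)) : γ < 1 ↔ γ ≤ exp (-1 : ℤ) := by
  rcases eq_or_ne γ 0 with h | h
  · simp [h]
  · obtain ⟨n, rfl⟩ : ∃ n : ℤ, γ = exp n := ⟨log γ, (exp_log h).symm⟩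
    rw [← exp_zero, exp_lt_exp, exp_le_exp]
    omega

theorem mem_max_iff (x : OO L) : x ∈ maximalIdeal (OO L) ↔ Valued.v (x : L) < 1 := by
  rw [mem_maximalIdeal, mem_nonunits_iff]
  have h1 : IsUnit x ↔ Valued.v (x : L) = 1 := by
    rw [isUnit_iff_dvd_one, dvd_iff]
    have hx : Valued.v (x : L) ≤ 1 := x.2
    have : Valued.v ((1 : OO L) : L) = 1 := map_one _
    rw [this]
    exact ⟨fun h => le_antisymm hx h, fun h => h.ge⟩
  rw [h1]
  have hx : Valued.v (x : L) ≤ 1 := x.2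
  exact ⟨fun h => lt_of_le_of_ne hx h, fun h => h.ne⟩

theorem max_eq (π : OO L) (hπ : Valued.v (π : L) = exp (-1 : ℤ)) :
    maximalIdeal (OO L) = Ideal.span {π} := by
  ext x
  rw [mem_max_iff, Ideal.mem_span_singleton, dvd_iff, hπ, lt_one_iff]

theorem mem_pow_iff (π : OO L) (hπ : Valued.v (π : L) = exp (-1 : ℤ)) (n : ℕ) (x : OO L) :
    x ∈ maximalIdeal (OO L) ^ n ↔ Valued.v (x : L) ≤ exp (-(n : ℤ)) := by
  rw [max_eq π hπ, Ideal.span_singleton_pow, Ideal.mem_span_singleton, dvd_iff]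
  have : ((π ^ n : OO L) : L) = (π : L) ^ n := rfl
  rw [this, map_pow, hπ, ← exp_nsmul]
  simp

theorem ball_mem_nhds (π : L) (hπ : Valued.v π = exp (-1 : ℤ)) (x : L) (n : ℕ) :
    {y : L | Valued.v (y - x) ≤ exp (-(n : ℤ))} ∈ nhds x := by
  rw [Valued.mem_nhds]
  have hv : Valued.v (π ^ n) = exp (-(n : ℤ)) := by
    rw [map_pow, hπ, ← exp_nsmul]
    simp
  have h0 : (Valued.v (R := L) (Γ₀ := WithZero (Multiplicative ℤ))).restrict (π ^ n) ≠ 0 := by
    rw [Ne, Valuation.restrict_eq_zero_iff, hv]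
    exact exp_ne_zero
  refine ⟨Units.mk0 _ h0, fun y hy => ?_⟩
  rw [Set.mem_ofPred_eq, Units.val_mk0, Valuation.restrict_lt_iff, hv] at hy
  exact hy.le

theorem cauchySeq_of (f : ℕ → L)
    (h : ∀ m n, m ≤ n → Valued.v (f n - f m) ≤ exp (-(m : ℤ))) : CauchySeq f := by
  rw [CauchySeq, Valued.cauchy_iff]
  refine ⟨Filter.map_neBot, fun γ => ?_⟩
  simp_rw [Valuation.restrict_lt_iff_lt_embedding]
  set δ := MonoidWithZeroHom.ValueGroup₀.embedding γ.1 with hδ
  have hδ0 : δ ≠ 0 := by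
    rw [hδ]
    exact (_root_.map_ne_zero _).2 γ.ne_zero
  obtain ⟨k, hk⟩ : ∃ k : ℤ, δ = exp k := ⟨log δ, (exp_log hδ0).symm⟩
  rw [hk]
  set N : ℕ := (-k).toNat + 1 with hN
  have hNk : -(N : ℤ) < k := by omega
  refine ⟨{x | Valued.v (x - f N) ≤ exp (-(N : ℤ))}, ?_, ?_⟩
  · rw [Filter.mem_map, Filter.mem_atTop_sets]
    exact ⟨N, fun n hn => h N n hn⟩
  · intro x hx y hy
    rw [Set.mem_ofPred_eq] at hx hy
    refine lt_of_le_of_lt ?_ (exp_lt_exp.2 hNk)
    have : y - x = (y - f N) - (x - f N) := by ring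
    rw [this]
    exact (Valuation.map_sub _ _ _).trans (max_le hy hx)

theorem exists_lim [CompleteSpace L] (π : L) (hπ : Valued.v π = exp (-1 : ℤ)) (f : ℕ → L)
    (h : ∀ m n, m ≤ n → Valued.v (f n - f m) ≤ exp (-(m : ℤ))) :
    ∃ z : L, ∀ n, Valued.v (f n - z) ≤ exp (-(n : ℤ)) := by
  obtain ⟨z, hz⟩ := cauchySeq_tendsto_of_complete (cauchySeq_of f h)
  refine ⟨z, fun n => ?_⟩
  have h1 := hz.eventually (ball_mem_nhds π hπ z n)
  obtain ⟨k, hk, hkn⟩ := (h1.and (Filter.eventually_ge_atTop n)).exists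
  have : f n - z = (f k - z) - (f k - f n) := by ring
  rw [this]
  exact (Valuation.map_sub _ _ _).trans (max_le hk (h n k hkn))

theorem adicComplete [CompleteSpace L] (π : OO L) (hπ : Valued.v (π : L) = exp (-1 : ℤ)) :
    IsAdicComplete (maximalIdeal (OO L)) (OO L) where
  haus' := by
    intro x hx
    apply Subtype.ext
    change (x : L) = 0
    by_contra hne
    have hvx : Valued.v (x : L) ≠ 0 := (_root_.map_ne_zero _).2 hne
    obtain ⟨k, hk⟩ : ∃ k : ℤ, Valued.v (x : L) = exp k := ⟨log _, (exp_log hvx).symm⟩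
    have h1 := hx ((-k).toNat + 1)
    rw [SModEq.zero, smul_eq_mul, Ideal.mul_top, mem_pow_iff π hπ, hk, exp_le_exp] at h1
    push_cast at h1
    omega
  prec' := by
    intro f hf
    have h1 : ∀ m n, m ≤ n → Valued.v ((f n : L) - f m) ≤ exp (-(m : ℤ)) := by
      intro m n hmn
      have h2 := hf hmn
      rw [SModEq.sub_mem, smul_eq_mul, Ideal.mul_top, mem_pow_iff π hπ] at h2
      have h3 : ((f m - f n : OO L) : L) = (f m : L) - f n := rfl
      rw [h3] at h2
      rwa [Valuation.map_sub_swap]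
    obtain ⟨z, hz⟩ := exists_lim (π : L) hπ (fun n => (f n : L)) h1
    have hzO : z ∈ OO L := by
      have h2 := hz 0
      rw [mem_OO]
      have h3 : z = (f 0 : L) - ((f 0 : L) - z) := by ring
      have h4 : Valued.v (f 0 : L) ≤ 1 := (f 0).2
      rw [h3]
      refine (Valuation.map_sub _ _ _).trans (max_le h4 ?_)
      simpa using h2
    refine ⟨⟨z, hzO⟩, fun n => ?_⟩
    rw [SModEq.sub_mem, smul_eq_mul, Ideal.mul_top, mem_pow_iff π hπ]
    exact hz n

theorem henselian [CompleteSpace L] (π : OO L) (hπ : Valued.v (π : L) = exp (-1 : ℤ)) :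
    HenselianLocalRing (OO L) := by
  have := adicComplete π hπ
  have : HenselianRing (OO L) (maximalIdeal (OO L)) := inferInstance
  exact
    { is_henselian := fun f hf a₀ h₁ h₂ =>
        HenselianRing.is_henselian f hf a₀ h₁ (h₂.map (Ideal.Quotient.mk _)) }

/-- The properties of a complete discretely valued field with finite residue field. -/
theorem loc_of [CompleteSpace L] (π : L) (hπ : Valued.v π = exp (-1 : ℤ)) (h2 : (2 : L) ≠ 0)
    (h2' : Valued.v (2 : L) = 1) (hfin : Finite (ResidueField (OO L))) :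
    Loc L (OO L) π := by
  have hπ0 : π ≠ 0 := by
    rw [← _root_.map_ne_zero (Valued.v (R := L) (Γ₀ := WithZero (Multiplicative ℤ))), hπ]
    exact exp_ne_zero
  have hπO : π ∈ OO L := by
    rw [mem_OO, hπ, ← exp_zero, exp_le_exp]
    omega
  refine ⟨⟨h2, ?_⟩, hπ0, hπO, ?_, ?_, henselian ⟨π, hπO⟩ hπ, hfin⟩
  · rw [mem_OO, map_inv₀, h2', inv_one]
  · intro x hx hx0
    rw [mem_OO] at hx
    rw [mem_OO, mem_OO, map_inv₀, map_div₀, hπ]
    have hvx : Valued.v x ≠ 0 := (_root_.map_ne_zero _).2 hx0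
    obtain ⟨k, hk⟩ : ∃ k : ℤ, Valued.v x = exp k := ⟨log _, (exp_log hvx).symm⟩
    rw [hk, ← exp_neg, ← exp_sub, ← exp_zero, exp_le_exp, exp_le_exp]
    rw [hk, ← exp_zero, exp_le_exp] at hx
    omega
  · intro x hx0
    have hvx : Valued.v x ≠ 0 := (_root_.map_ne_zero _).2 hx0
    obtain ⟨k, hk⟩ : ∃ k : ℤ, Valued.v x = exp k := ⟨log _, (exp_log hvx).symm⟩
    refine ⟨-k, ?_⟩
    have h1 : Valued.v (x / π ^ (-k)) = 1 := by
      rw [map_div₀, map_zpow₀, hπ, hk, ← exp_zsmul, ← exp_sub, ← exp_zero]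
      congr 1
      simp
    rw [mem_OO, mem_OO, map_inv₀, h1]
    simp

/-- A criterion for `IsComp`. -/
theorem isComp_of [CompleteSpace L] (F : Type) [Field F] (h2 : (2 : F) ≠ 0)
    (I : Set (RatFunc F)) (ϖ : RatFunc F) (ι : RatFunc F →+* L) (hd : DenseRange ι)
    (hϖ : Valued.v (ι ϖ) = exp (-1 : ℤ)) (hmem : ∀ x, Valued.v (ι x) ≤ 1 ↔ x ∈ I)
    (hC : ∀ c : F, c ≠ 0 → Valued.v (ι (RatFunc.C c)) = 1) (T : Type) [Finite T]
    (g : T → RatFunc F) (hg' : ∀ t, Valued.v (ι (g t)) ≤ 1)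
    (hg : ∀ x ∈ I, ∃ t : T, Valued.v (ι (x - g t)) < 1) :
    IsComp F I ϖ L (OO L) ι := by
  have hdense : ∀ (z : L) (N : ℕ), ∃ x : RatFunc F, Valued.v (z - ι x) ≤ exp (-(N : ℤ)) := by
    intro z N
    obtain ⟨y, hy⟩ := hd.exists_mem_open (isOpen_interior
      (s := {y : L | Valued.v (y - z) ≤ exp (-(N : ℤ))}))
      ⟨z, mem_interior_iff_mem_nhds.2 (ball_mem_nhds (ι ϖ) hϖ z N)⟩
    refine ⟨y, ?_⟩
    have h1 := interior_subset hy
    rw [Set.mem_ofPred_eq] at h1
    rwa [Valuation.map_sub_swap]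
  have h20 : (2 : L) ≠ 0 := by
    have h3 : (2 : L) = ι (RatFunc.C (2 : F)) := by rw [map_ofNat, map_ofNat]
    rw [h3]
    intro h4
    have h5 := hC 2 h2
    rw [h4, map_zero] at h5
    exact zero_ne_one h5
  have h21 : Valued.v (2 : L) = 1 := by
    have h3 : (2 : L) = ι (RatFunc.C (2 : F)) := by rw [map_ofNat, map_ofNat]
    rw [h3]
    exact hC 2 h2
  have hfin : Finite (ResidueField (OO L)) := by
    refine Finite.of_surjective (fun t : T => residue (OO L) ⟨ι (g t), hg' t⟩) ?_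
    intro r
    obtain ⟨z, rfl⟩ := residue_surjective r
    obtain ⟨x, hx⟩ := hdense (z : L) 1
    have hx' : Valued.v ((z : L) - ι x) < 1 := by
      rw [lt_one_iff]
      simpa using hx
    have hxI : x ∈ I := by
      rw [← hmem]
      have h3 : ι x = (z : L) - ((z : L) - ι x) := by ring
      have h4 : Valued.v (z : L) ≤ 1 := z.2
      rw [h3]
      exact (Valuation.map_sub _ _ _).trans (max_le h4 hx'.le)
    obtain ⟨t, ht⟩ := hg x hxI
    refine ⟨t, ?_⟩
    rw [← sub_eq_zero, ← map_sub, residue_eq_zero_iff, mem_max_iff]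
    have h5 : (((⟨ι (g t), hg' t⟩ : OO L) - z : OO L) : L) =
        -(((z : L) - ι x) + ι (x - g t)) := by
      rw [map_sub]
      change ι (g t) - (z : L) = _
      ring
    rw [h5, Valuation.map_neg]
    exact lt_of_le_of_lt (Valuation.map_add _ _ _) (max_lt hx' ht)
  refine ⟨loc_of (ι ϖ) hϖ h20 h21 hfin, hmem, fun z N => ?_⟩
  obtain ⟨x, hx⟩ := hdense z N
  refine ⟨x, ?_⟩
  rw [mem_OO, map_div₀, map_pow, hϖ, ← exp_nsmul]
  refine (div_le_one₀ (zero_lt_iff.2 exp_ne_zero)).2 ?_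
  simpa using hx

end General

end Pool.AVS.CPP
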